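import Pool.Agent.H88.MultRec
import Pool.Agent.H88.LpDynDefs

set_option autoImplicit false

namespace Pool.Agent.Results.MP_a8995d_an.MultRec

open Pool.Agent.H88.LpDynDefs

theorem result (w : ℕ → ℂ) (hw : ∀ k, w (k + 1) ≠ 0) (T : Op)
    (hT : ∀ (x : L2) (k : ℕ), T x k = w (k + 1) * x (k + 1))
    (U : Set L2) (hU : IsOpen U) (hne : U.Nonempty) (N : ℕ) :
    ∃ k₀ : ℕ, ∀ k ≥ k₀, ∃ x ∈ U, ∀ j, 1 ≤ j → j ≤ N → (fun y => y + T y)^[j * k] x ∈ U := by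
  obtain ⟨k0, h⟩ := Pool.Agent.H88.MultRec.main hw hT U hU hne N
  refine ⟨k0, fun k hk => ?_⟩
  obtain ⟨x, hx⟩ := h k hk
  refine ⟨x, by simpa using hx 0 (Nat.zero_le N), fun j _ hj => ?_⟩
  have := hx j hj
  rw [FunLike.coe_pow_eq_iterate] at this
  exact this

end Pool.Agent.Results.MP_a8995d_an.MultRec
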